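import Pool.Agent.H178Z.SKLow
import Pool.Agent.H178Z.SKUp

open Pool.Agent.H178Z.SK

/-- The set of admissible exponents has least element `1`, so `θ* = 1`. -/
theorem Pool.Agent.Results.MP_389529_an.AThetaEqOne.result :
    IsLeast {θ : ℝ | Admissible θ} 1 :=
  ⟨admissible_one, fun θ h => one_le_of_admissible θ h⟩
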